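import Mathlib

/-!
# All covers of products of lines: the statements of the parts (project AC)
-/

set_option autoImplicit false

namespace Pool.Agent.N753.AC

open NumberField IsDedekindDomain

/-- The part of the reduced preimage of the prime divisor `F = 0` of `Spec R` in `Spec A` on which
not all elements of `Y` vanish has degree at most `s` over the divisor: after inverting an element
`g` of `R` not divisible by `F`, the `R`-module `A / {f | Y f ⊆ √(F A)}` is generated by `s`
elements. -/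
def SheetsLE {R : Type} (A : Type) [CommRing R] [CommRing A] [Algebra R A] (F : R) (Y : Finset A)
    (s : ℕ) : Prop :=
  ∃ g : R, ¬ F ∣ g ∧ ∃ a : Fin s → A, ∀ b : A, ∃ r : Fin s → R, ∀ y ∈ Y,
    y * (algebraMap R A g * b - ∑ l, algebraMap R A (r l) * a l) ∈
      (Ideal.span {algebraMap R A F}).radical

/-- **AC/LOC** local data at a prime divisor of the base -/
def StmLOC : Prop := ∀ (R A : Type) [CommRing R] [IsDomain R] [IsNoetherianRing R] [CommRing A]
  [IsDomain A] [IsIntegrallyClosed A] [Algebra R A] [Module.Finite R A] [FaithfulSMul R A]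
  (F : R) (Y : Finset A) (s N : ℕ), Prime F → Module.finrank R A = N → SheetsLE A F Y s →
  ∃ (ω : Fin N → A) (z : A) (g : R) (M : Matrix (Fin N) (Fin N) R) (E : ℕ) (b : A → A),
    ¬ F ∣ g ∧ (∀ i, algebraMap R A g * z * ω i = ∑ j, algebraMap R A (M i j) * ω j) ∧
    ¬ F ^ (s + 1) ∣ M.det ∧
    (∀ a, ∃ r : Fin N → R, algebraMap R A g * a = ∑ i, algebraMap R A (r i) * ω i) ∧
    ∀ y ∈ Y, algebraMap R A g * (y * z) ^ E = algebraMap R A F * b y

/-- **AC/NRM** specialisation of the local data: for almost all primes `v` of `K` at which the point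
`x` is integral and meets `F = 0` with multiplicity one outside `g = 0` there is an element `ζ` of
`L` which is integral at the primes above `v`, belongs to the primes above `v` at which some
`y ∈ Y` does not vanish, and whose norm has order at most `s` at `v` -/
def StmNRM : Prop := ∀ (K : Type) [Field K] [NumberField K] (m : ℕ) (A : Type) [CommRing A]
  [IsDomain A] [IsIntegrallyClosed A] [Algebra (MvPolynomial (Fin m) K) A]
  [FaithfulSMul (MvPolynomial (Fin m) K) A] [Module.Finite (MvPolynomial (Fin m) K) A]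
  (F : MvPolynomial (Fin m) K) (Y : Finset A) (s : ℕ), Irreducible F → SheetsLE A F Y s →
  ∃ (g : MvPolynomial (Fin m) K) (Bad : Finset (HeightOneSpectrum (𝓞 K))), ¬ F ∣ g ∧
    ∀ (L : Type) [Field L] [NumberField L] [Algebra K L] (φ : A →+* L) (x : Fin m → K),
      Function.Surjective φ →
      Module.finrank K L = Module.finrank (MvPolynomial (Fin m) K) A →
      (∀ f : MvPolynomial (Fin m) K, φ (algebraMap (MvPolynomial (Fin m) K) A f) =
        algebraMap K L (MvPolynomial.eval x f)) →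
      ∀ v : HeightOneSpectrum (𝓞 K), v ∉ Bad → (∀ i, FinitePlace.mk v (x i) ≤ 1) →
        FinitePlace.mk v (MvPolynomial.eval x F) = (Ideal.absNorm v.asIdeal : ℝ)⁻¹ →
        FinitePlace.mk v (MvPolynomial.eval x g) = 1 →
        ∃ ζ : L, ((Ideal.absNorm v.asIdeal : ℝ) ^ s)⁻¹ ≤ FinitePlace.mk v (Algebra.norm K ζ) ∧
          ∀ w : HeightOneSpectrum (𝓞 L), v.asIdeal.map (algebraMap (𝓞 K) (𝓞 L)) ≤ w.asIdeal →
            FinitePlace.mk w ζ ≤ 1 ∧ (∀ y ∈ Y, FinitePlace.mk w (φ y) ≤ 1) ∧
              ((∃ y ∈ Y, FinitePlace.mk w (φ y) = 1) → FinitePlace.mk w ζ < 1)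

/-- **AC/RAM** the different above a prime `v` of `K`: `W` contains the primes `w` above `v` at
which `ζ` is a unit, and the norm of `ζ` has order at most `s` at `v` -/
def StmRAM : Prop := ∀ (K L : Type) [Field K] [NumberField K] [Field L] [NumberField L]
  [Algebra K L] (v : HeightOneSpectrum (𝓞 K)) (W : Finset (HeightOneSpectrum (𝓞 L))) (ζ : L)
  (s : ℕ), (∀ w : HeightOneSpectrum (𝓞 L), v.asIdeal.map (algebraMap (𝓞 K) (𝓞 L)) ≤ w.asIdeal →
    FinitePlace.mk w ζ ≤ 1 ∧ (w ∉ W → FinitePlace.mk w ζ < 1)) →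
  ((Ideal.absNorm v.asIdeal : ℝ) ^ s)⁻¹ ≤ FinitePlace.mk v (Algebra.norm K ζ) →
  ∃ J : Ideal (𝓞 L), J ∣ differentIdeal (𝓞 K) (𝓞 L) ∧
    v.asIdeal.map (algebraMap (𝓞 K) (𝓞 L)) ≤ J ∧ J ≠ ⊥ ∧
    ((Module.finrank K L : ℝ) - s) * Real.log (Ideal.absNorm v.asIdeal) -
      ∑ w ∈ W, Real.log (Ideal.absNorm w.asIdeal) ≤ Real.log (Ideal.absNorm J)

end Pool.Agent.N753.AC
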