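import Mathlib
import Pool.Agent.N753.LS.Ram3
import Pool.Agent.N753.AC.Stm

/-!
# The discriminant and the truncated counting function (project AC)
-/

set_option autoImplicit false
set_option linter.unusedSectionVars false

namespace Pool.Agent.N753.AC

open NumberField IsDedekindDomain Finset Pool.Agent.N753.LS

variable {K L : Type} [Field K] [NumberField K] [Field L] [NumberField L] [Algebra K L]

/-- the prime `w` of `L` is above the prime `v` of `K` -/
def Ab (v : HeightOneSpectrum (𝓞 K)) (w : HeightOneSpectrum (𝓞 L)) : Prop :=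
  v.asIdeal.map (algebraMap (𝓞 K) (𝓞 L)) ≤ w.asIdeal

theorem ab_comap {v : HeightOneSpectrum (𝓞 K)} {w : HeightOneSpectrum (𝓞 L)} (h : Ab v w) :
    v.asIdeal = w.asIdeal.comap (algebraMap (𝓞 K) (𝓞 L)) := by
  have h1 : v.asIdeal ≤ w.asIdeal.comap (algebraMap (𝓞 K) (𝓞 L)) := Ideal.map_le_iff_le_comap.1 h
  have h2 : (w.asIdeal.comap (algebraMap (𝓞 K) (𝓞 L))).IsPrime := Ideal.comap_isPrime _ _
  exact v.isMaximal.eq_of_le h2.ne_top h1

theorem ab_unique {v v' : HeightOneSpectrum (𝓞 K)} {w : HeightOneSpectrum (𝓞 L)} (h : Ab v w)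
    (h' : Ab v' w) : v = v' :=
  HeightOneSpectrum.ext ((ab_comap h).trans (ab_comap h').symm)

theorem ab_finite (v : HeightOneSpectrum (𝓞 K)) : {w : HeightOneSpectrum (𝓞 L) | Ab v w}.Finite := by
  have h0 : v.asIdeal.map (algebraMap (𝓞 K) (𝓞 L)) ≠ 0 := by
    intro h
    have h1 := (Ideal.map_eq_bot_iff_of_injective
      (FaithfulSMul.algebraMap_injective (𝓞 K) (𝓞 L))).1 h
    exact v.ne_bot h1
  refine (Ideal.finite_factors h0).subset ?_
  intro w hw
  exact Ideal.dvd_iff_le.2 hw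

open Classical in
/-- **the discriminant and the truncated counting function** -/
theorem disc_bound (hRAM : StmRAM) {r : ℕ} (V : Fin r → Finset (HeightOneSpectrum (𝓞 K)))
    (hdisj : ∀ i j, i ≠ j → Disjoint (V i) (V j)) (s : Fin r → ℕ)
    (cond : Fin r → HeightOneSpectrum (𝓞 L) → Prop)
    (hV : ∀ j, ∀ v ∈ V j, ∃ ζ : L,
      ((Ideal.absNorm v.asIdeal : ℝ) ^ s j)⁻¹ ≤ FinitePlace.mk v (Algebra.norm K ζ) ∧
        ∀ w : HeightOneSpectrum (𝓞 L), Ab v w → FinitePlace.mk w ζ ≤ 1 ∧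
          (¬ cond j w → FinitePlace.mk w ζ < 1))
    (Q : HeightOneSpectrum (𝓞 L) → Prop)
    (hQ : ∀ j, ∀ v ∈ V j, ∀ w : HeightOneSpectrum (𝓞 L), Ab v w → cond j w → Q w)
    (hQf : {w | Q w}.Finite) :
    ∑ j, ((Module.finrank K L : ℝ) - s j) * ∑ v ∈ V j, Real.log (Ideal.absNorm v.asIdeal) ≤
      Real.log |(discr L : ℝ)| +
        ∑ᶠ w : HeightOneSpectrum (𝓞 L), if Q w then Real.log (Ideal.absNorm w.asIdeal) else 0 := by
  have hlogn : ∀ w : HeightOneSpectrum (𝓞 L), 0 ≤ Real.log (Ideal.absNorm w.asIdeal : ℝ) :=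
    fun w => Real.log_natCast_nonneg _
  -- the primes above `v` with the condition
  obtain ⟨W, hW⟩ : ∃ W : Fin r → HeightOneSpectrum (𝓞 K) → Finset (HeightOneSpectrum (𝓞 L)),
      ∀ j v w, w ∈ W j v ↔ Ab v w ∧ cond j w := by
    refine ⟨fun j v => (ab_finite (L := L) v).toFinset.filter fun w => cond j w, ?_⟩
    intro j v w
    rw [Finset.mem_filter, Set.Finite.mem_toFinset]
    rfl
  obtain ⟨wt, hwt⟩ : ∃ wt : Fin r → HeightOneSpectrum (𝓞 K) → ℝ, ∀ j v,
      wt j v = ((Module.finrank K L : ℝ) - s j) * Real.log (Ideal.absNorm v.asIdeal) -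
        ∑ w ∈ W j v, Real.log (Ideal.absNorm w.asIdeal) := ⟨_, fun _ _ => rfl⟩
  -- the different
  have hJ : ∀ j, ∀ v ∈ V j, ∃ J : Ideal (𝓞 L), J ∣ differentIdeal (𝓞 K) (𝓞 L) ∧
      v.asIdeal.map (algebraMap (𝓞 K) (𝓞 L)) ≤ J ∧ J ≠ ⊥ ∧
        wt j v ≤ Real.log (Ideal.absNorm J) := by
    intro j v hv
    obtain ⟨ζ, h1, h2⟩ := hV j v hv
    obtain ⟨J, a1, a2, a3, a4⟩ := hRAM K L v (W j v) ζ (s j) (fun w hw => ⟨(h2 w hw).1, fun h =>
      (h2 w hw).2 fun hc => h ((hW j v w).2 ⟨hw, hc⟩)⟩) h1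
    exact ⟨J, a1, a2, a3, by rw [hwt]; exact a4⟩
  -- the union of the sets
  obtain ⟨U, hU⟩ : ∃ U : Finset (HeightOneSpectrum (𝓞 K)), U = Finset.univ.biUnion V := ⟨_, rfl⟩
  have hUj : ∀ v : HeightOneSpectrum (𝓞 K), ∃ j : ℕ, v ∈ U → ∃ h : j < r, v ∈ V ⟨j, h⟩ := by
    intro v
    by_cases hv : v ∈ U
    · rw [hU, Finset.mem_biUnion] at hv
      obtain ⟨j, -, hj⟩ := hv
      exact ⟨j, fun _ => ⟨j.2, hj⟩⟩
    · exact ⟨0, fun h => absurd h hv⟩
  choose jj hjj using hUj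
  obtain ⟨ww, hww⟩ : ∃ ww : HeightOneSpectrum (𝓞 K) → ℝ, ∀ j, ∀ v ∈ V j, ww v = wt j v := by
    refine ⟨fun v => if h : jj v < r then wt ⟨jj v, h⟩ v else 0, ?_⟩
    intro j v hv
    have hvU : v ∈ U := by
      rw [hU]
      exact Finset.mem_biUnion.2 ⟨j, Finset.mem_univ _, hv⟩
    obtain ⟨h1, h2⟩ := hjj v hvU
    have h3 : (⟨jj v, h1⟩ : Fin r) = j := by
      by_contra hne
      exact (Finset.disjoint_left.1 (hdisj _ _ hne) h2) hv
    show (if h : jj v < r then wt ⟨jj v, h⟩ v else 0) = wt j v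
    rw [dif_pos h1, h3]
  have h1 := disc_lower (K := K) (L := L) U ww (by
    intro v hv
    rw [hU, Finset.mem_biUnion] at hv
    obtain ⟨j, -, hj⟩ := hv
    obtain ⟨J, a1, a2, a3, a4⟩ := hJ j v hj
    exact ⟨J, a1, a2, a3, by rw [hww j v hj]; exact a4⟩)
  have hpd : ∀ i ∈ (Finset.univ : Finset (Fin r)), ∀ j ∈ (Finset.univ : Finset (Fin r)), i ≠ j →
      Disjoint (V i) (V j) := fun i _ j _ h => hdisj i j h
  have h2 : ∑ v ∈ U, ww v = ∑ j, ∑ v ∈ V j, wt j v := by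
    rw [hU, Finset.sum_biUnion (fun i hi j hj hij => hpd i hi j hj hij)]
    exact Finset.sum_congr rfl fun j _ => Finset.sum_congr rfl fun v hv => hww j v hv
  have h3 : 0 ≤ (Module.finrank K L : ℝ) * Real.log |(discr K : ℝ)| := by
    refine mul_nonneg (Nat.cast_nonneg _) ?_
    refine Real.log_nonneg ?_
    have : (1 : ℤ) ≤ |discr K| := Int.one_le_abs (discr_ne_zero K)
    exact_mod_cast this
  -- the primes of `L`
  have h4 : ∑ j, ∑ v ∈ V j, ∑ w ∈ W j v, Real.log (Ideal.absNorm w.asIdeal : ℝ) ≤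
      ∑ᶠ w : HeightOneSpectrum (𝓞 L), if Q w then Real.log (Ideal.absNorm w.asIdeal) else 0 := by
    have e1 : ∑ᶠ w : HeightOneSpectrum (𝓞 L), (if Q w then
        Real.log (Ideal.absNorm w.asIdeal : ℝ) else 0) =
        ∑ w ∈ hQf.toFinset, Real.log (Ideal.absNorm w.asIdeal : ℝ) := by
      rw [finsum_eq_sum_of_support_subset (s := hQf.toFinset)]
      · refine Finset.sum_congr rfl fun w hw => ?_
        rw [Set.Finite.mem_toFinset] at hw
        exact if_pos hw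
      · intro w hw
        rw [Set.Finite.coe_toFinset]
        by_contra hcon
        exact hw (if_neg hcon)
    rw [e1]
    obtain ⟨B, hB⟩ : ∃ B : Finset (HeightOneSpectrum (𝓞 L)),
        B = Finset.univ.biUnion fun j => (V j).biUnion fun v => W j v := ⟨_, rfl⟩
    have e2 : ∑ w ∈ B, Real.log (Ideal.absNorm w.asIdeal : ℝ) =
        ∑ j, ∑ v ∈ V j, ∑ w ∈ W j v, Real.log (Ideal.absNorm w.asIdeal : ℝ) := by
      rw [hB, Finset.sum_biUnion]
      · refine Finset.sum_congr rfl fun j _ => ?_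
        rw [Finset.sum_biUnion]
        intro v _ v' _ hvv'
        refine Finset.disjoint_left.2 fun w hw hw' => hvv' ?_
        exact ab_unique ((hW j v w).1 hw).1 ((hW j v' w).1 hw').1
      · intro i _ j _ hij
        refine Finset.disjoint_left.2 fun w hw hw' => ?_
        rw [Finset.mem_biUnion] at hw hw'
        obtain ⟨v, hv, hvw⟩ := hw
        obtain ⟨v', hv', hvw'⟩ := hw'
        have := ab_unique ((hW i v w).1 hvw).1 ((hW j v' w).1 hvw').1
        rw [← this] at hv'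
        exact Finset.disjoint_left.1 (hdisj i j hij) hv hv'
    rw [← e2]
    refine Finset.sum_le_sum_of_subset_of_nonneg ?_ fun w _ _ => hlogn w
    intro w hw
    rw [hB, Finset.mem_biUnion] at hw
    obtain ⟨j, -, hw⟩ := hw
    rw [Finset.mem_biUnion] at hw
    obtain ⟨v, hv, hw⟩ := hw
    rw [Set.Finite.mem_toFinset]
    exact hQ j v hv w ((hW j v w).1 hw).1 ((hW j v w).1 hw).2
  have h5 : ∑ j, ∑ v ∈ V j, wt j v = ∑ j, ((Module.finrank K L : ℝ) - s j) *
      ∑ v ∈ V j, Real.log (Ideal.absNorm v.asIdeal) -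
        ∑ j, ∑ v ∈ V j, ∑ w ∈ W j v, Real.log (Ideal.absNorm w.asIdeal : ℝ) := by
    rw [← Finset.sum_sub_distrib]
    refine Finset.sum_congr rfl fun j _ => ?_
    rw [Finset.mul_sum, ← Finset.sum_sub_distrib]
    exact Finset.sum_congr rfl fun v _ => hwt j v
  linarith

end Pool.Agent.N753.AC
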