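import Mathlib
import Pool.Agent.N753.SU.Idl

/-!
# Almost all points meet a divisor with multiplicity one over most primes (project AC)
-/

set_option autoImplicit false
set_option linter.unusedSectionVars false

namespace Pool.Agent.N753.AC

open NumberField IsDedekindDomain Finset Pool.Agent.H691R3
open Pool.Agent.TH876.Loc hiding mx
open Pool.Agent.N753.LS Pool.Agent.N753.SF Pool.Agent.N753.SU Polynomial

variable {K : Type} [Field K] [NumberField K]

/-- the sum of the local heights -/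
theorem lh_sum (hUM : StmUM) {m : ℕ} {F : MvPolynomial (Fin m) K} (hF : F ≠ 0) :
    ∃ C : ℝ, ∀ x : Fin m → K, MvPolynomial.eval x F ≠ 0 → ∀ T : Finset (Pr K),
      ∑ v ∈ T, lh v F x ≤ ∑ i, (F.degreeOf i : ℝ) * hr (aff (x i)) + C := by
  classical
  obtain ⟨c, hc0, hcf, hc⟩ := hUM K m F
  obtain ⟨L, hL⟩ : ∃ L : Finset (Pr K), L = (lm_fin (cfs_ne hF)).toFinset := ⟨_, rfl⟩
  refine ⟨∑ v ∈ L, lm (Sum.inr v) (cfs F) + ∑ w : InfinitePlace K, c (Sum.inl w), ?_⟩
  intro x hx T
  obtain ⟨U, hU⟩ : ∃ U : Finset (Pr K), U = T ∪ (L ∪ (nm_fin hx).toFinset) := ⟨_, rfl⟩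
  have hLU : L ⊆ U := by
    rw [hU]
    exact Finset.subset_union_left.trans Finset.subset_union_right
  have h1 : ∑ v ∈ T, lh v F x ≤ ∑ v ∈ U, lh v F x :=
    Finset.sum_le_sum_of_subset_of_nonneg (by rw [hU]; exact Finset.subset_union_left)
      fun v _ _ => lh_nonneg v hx
  refine h1.trans ?_
  simp only [lh_eq]
  rw [Finset.sum_sub_distrib, Finset.sum_add_distrib]
  have h2 : ∑ v ∈ U, lm (Sum.inr v) (cfs F) = ∑ v ∈ L, lm (Sum.inr v) (cfs F) := by
    symm
    refine Finset.sum_subset hLU fun v _ hv => ?_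
    rw [hL, Set.Finite.mem_toFinset, Set.mem_ofPred_eq, not_not] at hv
    exact hv
  have h3 := sum_nm hx U (fun v hv => by
    rw [hU] at hv
    simp only [Finset.mem_union, not_or, Set.Finite.mem_toFinset,
      Set.mem_ofPred_eq, not_not] at hv
    exact hv.2.2)
  have h4 : ∑ w : InfinitePlace K, nm (Sum.inl w) (MvPolynomial.eval x F) ≤
      ∑ w : InfinitePlace K, (∑ i, (F.degreeOf i : ℝ) * mx (Sum.inl w) (x i) +
        c (Sum.inl w)) := Finset.sum_le_sum fun w _ => hc x hx (Sum.inl w)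
  rw [Finset.sum_add_distrib] at h4
  have h5 : ∑ w : InfinitePlace K, ∑ i, (F.degreeOf i : ℝ) * mx (Sum.inl w) (x i) +
      ∑ v ∈ U, ∑ i, (F.degreeOf i : ℝ) * mx (Sum.inr v) (x i) ≤
        ∑ i, (F.degreeOf i : ℝ) * hr (aff (x i)) := by
    rw [Finset.sum_comm, Finset.sum_comm (s := U), ← Finset.sum_add_distrib]
    refine Finset.sum_le_sum fun i _ => ?_
    rw [← Finset.mul_sum, ← Finset.mul_sum, ← mul_add]
    exact mul_le_mul_of_nonneg_left (sum_mx_le (x i) U) (Nat.cast_nonneg _)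
  linarith

/-- at an integral point outside finitely many primes the local height is the order of the value -/
theorem lh_int {m : ℕ} {F : MvPolynomial (Fin m) K} {x : Fin m → K} {v : Pr K}
    (hv : lm (Sum.inr v) (cfs F) = 0) (hx : ∀ i, fv v (x i) ≤ 1) :
    lh v F x = -nm (Sum.inr v) (MvPolynomial.eval x F) := by
  rw [lh_eq, hv, Finset.sum_eq_zero fun i _ => by rw [mx_of_le (hx i), mul_zero]]
  ring

/-- a value of absolute value less than one which is not the reciprocal of the norm of the prime -/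
theorem two_le_ord {v : Pr K} {z : K} (hz : z ≠ 0) (h : fv v z < 1) (h1 : fv v z ≠ (Nv v)⁻¹) :
    2 * Real.log (Nv v) ≤ -nm (Sum.inr v) z := by
  obtain ⟨n, hn⟩ := log_fv v hz
  have h2 := log_Nv_pos v
  have h3 : Real.log (fv v z) < 0 := Real.log_neg ((fv v).pos hz) h
  have hN : 0 < Nv v := by
    by_contra hcon
    rw [not_lt] at hcon
    have h4 : (0 : ℝ) ≤ Nv v := Nat.cast_nonneg _
    rw [le_antisymm hcon h4, Real.log_zero] at h2
    exact lt_irrefl _ h2
  have h5 : n < 0 := by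
    by_contra hcon
    rw [not_lt] at hcon
    have : (0 : ℝ) ≤ n := by exact_mod_cast hcon
    nlinarith
  have h6 : n ≠ -1 := by
    rintro rfl
    apply h1
    have h7 : Real.log (fv v z) = Real.log (Nv v)⁻¹ := by
      rw [hn, Real.log_inv]
      push_cast
      ring
    exact Real.log_injOn_pos (Set.mem_Ioi.2 ((fv v).pos hz)) (Set.mem_Ioi.2 (inv_pos.2 hN)) h7
  have h7 : (n : ℝ) ≤ -2 := by
    have : n ≤ -2 := by omega
    exact_mod_cast this
  show _ ≤ -Real.log (fv v z)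
  rw [hn]
  nlinarith

/-- the primes at which both polynomials are small -/
theorem ovl (hUM : StmUM) {m : ℕ} (F g : MvPolynomial (Fin m) K) :
    ∃ C : ℝ, ∀ x : Fin m → K, MvPolynomial.eval x F ≠ 0 → ∀ T : Finset (Pr K),
      (∀ v ∈ T, (∀ i, fv v (x i) ≤ 1) ∧ fv v (MvPolynomial.eval x F) < 1 ∧
        fv v (MvPolynomial.eval x g) < 1) →
      ∑ v ∈ T, Real.log (Nv v) ≤ idHt F g x + C := by
  classical
  obtain ⟨c, hc0, hcf, hc⟩ := hUM K m F
  obtain ⟨d, hd0, hdf, hd⟩ := hUM K m g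
  refine ⟨∑ w : InfinitePlace K, (c (Sum.inl w) + d (Sum.inl w)) +
    ∑ p ∈ hcf.toFinset ∪ hdf.toFinset, (c p + d p), ?_⟩
  intro x hx T hT
  -- lower bounds for the local heights
  have hmc : ∀ (a : AbsoluteValue K ℝ) (i : Fin m), max (a (x i)) 1 = max 1 (a (x i)) :=
    fun a i => max_comm _ _
  have gen : ∀ (p : Pl K) (a : AbsoluteValue K ℝ) (μ : ℝ), 0 < μ →
      (∀ z : K, nm p z = μ * Real.log (a z)) → (∀ z : K, mx p z = μ * Real.log (max (a z) 1)) →
      -(c p + d p) ≤ μ * idLoc F g x a := by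
    intro p a μ hμ hnm hmx
    have hpos : ∀ H : MvPolynomial (Fin m) K, 0 < ∏ i, (max 1 (a (x i))) ^ H.degreeOf i := fun H =>
      Finset.prod_pos fun i _ => pow_pos (zero_lt_one.trans_le (le_max_left _ _)) _
    have key : ∀ (H : MvPolynomial (Fin m) K) (e : ℝ), MvPolynomial.eval x H ≠ 0 →
        nm p (MvPolynomial.eval x H) ≤ ∑ i, (H.degreeOf i : ℝ) * mx p (x i) + e →
        μ * Real.log (a (MvPolynomial.eval x H) / ∏ i, (max 1 (a (x i))) ^ H.degreeOf i) ≤ e := by
      intro H e hH h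
      rw [Real.log_div (a.pos hH).ne' (hpos H).ne',
        Real.log_prod (fun i _ => (pow_pos (zero_lt_one.trans_le (le_max_left _ _)) _).ne'),
        mul_sub, ← hnm, Finset.mul_sum]
      have e1 : ∀ i, μ * Real.log ((max 1 (a (x i))) ^ H.degreeOf i) =
          (H.degreeOf i : ℝ) * mx p (x i) := by
        intro i
        rw [Real.log_pow, hmx, hmc a i]
        ring
      rw [Finset.sum_congr rfl fun i _ => e1 i]
      linarith
    unfold idLoc
    rw [mul_neg, neg_le_neg_iff]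
    rcases le_total (a (MvPolynomial.eval x g) / ∏ i, (max 1 (a (x i))) ^ g.degreeOf i)
      (a (MvPolynomial.eval x F) / ∏ i, (max 1 (a (x i))) ^ F.degreeOf i) with h | h
    · rw [max_eq_left h]
      have h1 := key F (c p) hx (hc x hx p)
      have h2 := hd0 p
      linarith
    · rw [max_eq_right h]
      have h3 : 0 < a (MvPolynomial.eval x F) / ∏ i, (max 1 (a (x i))) ^ F.degreeOf i :=
        div_pos (a.pos hx) (hpos F)
      have h4 : MvPolynomial.eval x g ≠ 0 := by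
        intro h0
        rw [h0, map_zero, zero_div] at h
        linarith
      have h1 := key g (d p) h4 (hd x h4 p)
      have h2 := hc0 p
      linarith
  have hinf : ∀ w : InfinitePlace K, -(c (Sum.inl w) + d (Sum.inl w)) ≤
      (w.mult : ℝ) * idLoc F g x w := fun w =>
    gen (Sum.inl w) w.1 w.mult (by exact_mod_cast w.mult_pos) (fun z => rfl) (fun z => rfl)
  have hfin : ∀ v : Pr K, -(c (Sum.inr v) + d (Sum.inr v)) ≤ idLoc F g x (FinitePlace.mk v) := by
    intro v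
    have h1 := gen (Sum.inr v) (fv v) 1 one_pos (fun z => (one_mul _).symm) (fun z => (one_mul _).symm)
    rw [one_mul] at h1
    exact h1
  have hTv : ∀ v ∈ T, Real.log (Nv v) ≤ idLoc F g x (FinitePlace.mk v) := by
    intro v hv
    obtain ⟨h1, h2, h3⟩ := hT v hv
    have hone : ∀ H : MvPolynomial (Fin m) K,
        ∏ i, (max 1 (fv v (x i))) ^ H.degreeOf i = 1 := by
      intro H
      refine Finset.prod_eq_one fun i _ => ?_
      rw [max_eq_left (h1 i), one_pow]
    have hpos := (fv v).pos hx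
    have h4 := log_ge_of_lt hx h2
    have h4' : Real.log (fv v (MvPolynomial.eval x F)) ≤ -Real.log (Nv v) := by
      have : nm (Sum.inr v) (MvPolynomial.eval x F) =
        Real.log (fv v (MvPolynomial.eval x F)) := rfl
      linarith
    show _ ≤ -Real.log (max (fv v (MvPolynomial.eval x F) / ∏ i, (max 1 (fv v (x i))) ^
      F.degreeOf i) (fv v (MvPolynomial.eval x g) / ∏ i, (max 1 (fv v (x i))) ^ g.degreeOf i))
    rw [hone, hone, div_one, div_one]
    rcases le_total (fv v (MvPolynomial.eval x g)) (fv v (MvPolynomial.eval x F)) with h | h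
    · rw [max_eq_left h]
      linarith
    · rw [max_eq_right h]
      have h5 : MvPolynomial.eval x g ≠ 0 := by
        intro h0
        rw [h0, map_zero] at h
        linarith
      have h6 := log_ge_of_lt h5 h3
      have h7 : nm (Sum.inr v) (MvPolynomial.eval x g) =
        Real.log (fv v (MvPolynomial.eval x g)) := rfl
      linarith
  obtain ⟨U, hU⟩ : ∃ U : Finset (Pr K), U = (idLoc_fin F g (Or.inl hx)).toFinset ∪ T := ⟨_, rfl⟩
  have h1 : ∑ᶠ v : HeightOneSpectrum (𝓞 K), idLoc F g x (FinitePlace.mk v) =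
      ∑ v ∈ U, idLoc F g x (FinitePlace.mk v) := by
    refine finsum_eq_sum_of_support_subset _ ?_
    intro v hv
    rw [hU, Finset.coe_union]
    left
    rw [Set.Finite.coe_toFinset]
    exact hv
  have hTU : T ⊆ U := by rw [hU]; exact Finset.subset_union_right
  unfold idHt
  rw [h1, ← Finset.sum_sdiff hTU]
  have h2 : -∑ w : InfinitePlace K, (c (Sum.inl w) + d (Sum.inl w)) ≤
      ∑ w : InfinitePlace K, (w.mult : ℝ) * idLoc F g x w := by
    rw [← Finset.sum_neg_distrib]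
    exact Finset.sum_le_sum fun w _ => hinf w
  have h3 : -∑ v ∈ U \ T, (c (Sum.inr v) + d (Sum.inr v)) ≤
      ∑ v ∈ U \ T, idLoc F g x (FinitePlace.mk v) := by
    rw [← Finset.sum_neg_distrib]
    exact Finset.sum_le_sum fun v _ => hfin v
  have h4 : ∑ v ∈ U \ T, (c (Sum.inr v) + d (Sum.inr v)) ≤
      ∑ p ∈ hcf.toFinset ∪ hdf.toFinset, (c p + d p) := by
    have e1 : ∑ v ∈ U \ T, (c (Sum.inr v) + d (Sum.inr v)) =
        ∑ p ∈ (U \ T).map ⟨Sum.inr, Sum.inr_injective⟩, (c p + d p) := by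
      rw [Finset.sum_map]
      rfl
    rw [e1]
    refine (Finset.sum_le_sum_of_subset_of_nonneg (t := (U \ T).map ⟨Sum.inr, Sum.inr_injective⟩ ∪
      (hcf.toFinset ∪ hdf.toFinset)) Finset.subset_union_left
      fun p _ _ => add_nonneg (hc0 p) (hd0 p)).trans (le_of_eq ?_)
    symm
    refine Finset.sum_subset Finset.subset_union_right ?_
    intro p _ hp
    rw [Finset.mem_union, not_or, Set.Finite.mem_toFinset, Set.Finite.mem_toFinset,
      Set.mem_ofPred_eq, Set.mem_ofPred_eq, not_not, not_not] at hp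
    rw [hp.1, hp.2, add_zero]
  have h5 : ∑ v ∈ T, Real.log (Nv v) ≤ ∑ v ∈ T, idLoc F g x (FinitePlace.mk v) :=
    Finset.sum_le_sum hTv
  linarith

open Classical in
/-- the primes at which the point is integral and meets the divisor with multiplicity one and
outside `g = 0` -/
noncomputable def good {m : ℕ} (F g : MvPolynomial (Fin m) K) (Bad : Finset (Pr K))
    (x : Fin m → K) : Finset (Pr K) :=
  (ddm F x).filter fun v => v ∉ Bad ∧ fv v (MvPolynomial.eval x F) = (Nv v)⁻¹ ∧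
    fv v (MvPolynomial.eval x g) = 1

/-- the degree of a divisor -/
noncomputable def tdeg {m : ℕ} (F : MvPolynomial (Fin m) K) : ℕ := ∑ i, F.degreeOf i

theorem cnt (hUM : StmUM) {m : ℕ} {E1 E2 : Set (Fin m → K)}
    (h1 : ∀ (r : ℕ) (F : Fin r → MvPolynomial (Fin m) K) (I : Finset (Fin m)),
        (∀ j, Irreducible (F j)) → (∀ j k, j ≠ k → ¬ Associated (F j) (F k)) → ∀ κ : ℝ, 0 < κ →
        ∃ h0 : ℝ, ∀ x : Fin m → K, x ∉ E1 → h0 ≤ htm x →
          (∀ j, MvPolynomial.eval x (F j) ≠ 0) →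
            (wtt F I - κ) * htm x ≤ ∑ v ∈ UU F I x, Real.log (Nv v) ∧
              ∀ i, (1 - κ) * htm x ≤ hr (aff (x i)))
    (h2 : ∀ F G : MvPolynomial (Fin m) K, IsRelPrime F G → ∀ κ : ℝ, 0 < κ →
        ∃ h0 : ℝ, ∀ x : Fin m → K, x ∉ E2 → h0 ≤ htm x →
          (MvPolynomial.eval x F ≠ 0 ∨ MvPolynomial.eval x G ≠ 0) ∧
            idHt F G x ≤ κ * htm x)
    {F : MvPolynomial (Fin m) K} (hF : Irreducible F) (h5 : tdeg F ≤ 5)
    {g : MvPolynomial (Fin m) K} (hg : ¬ F ∣ g) (Bad : Finset (Pr K)) {κ : ℝ} (hκ : 0 < κ) :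
    ∃ h0 : ℝ, ∀ x : Fin m → K, x ∉ E1 → x ∉ E2 → h0 ≤ htm x → MvPolynomial.eval x F ≠ 0 →
      ((tdeg F : ℝ) - κ) * htm x ≤ ∑ v ∈ good F g Bad x, Real.log (Nv v) := by
  classical
  have hF0 : F ≠ 0 := hF.ne_zero
  have hg0 : g ≠ 0 := fun h => hg (h ▸ dvd_zero F)
  obtain ⟨κ', hκ'⟩ : ∃ κ' : ℝ, κ' = κ / 4 := ⟨_, rfl⟩
  have hκ'0 : 0 < κ' := by rw [hκ']; positivity
  obtain ⟨a1, ha1⟩ := h1 1 (fun _ => F) ∅ (fun _ => hF)
    (fun j k hjk => absurd (Subsingleton.elim j k) hjk) κ' hκ'0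
  obtain ⟨a2, ha2⟩ := h2 F g (hF.isRelPrime_iff_not_dvd.2 hg) κ' hκ'0
  obtain ⟨C1, hC1⟩ := lh_sum hUM hF0
  obtain ⟨C2, hC2⟩ := ovl hUM F g
  obtain ⟨T0, hT0⟩ : ∃ T0 : Finset (Pr K), T0 = Bad ∪ ((lm_fin (cfs_ne hF0)).toFinset ∪
    (lm_fin (cfs_ne hg0)).toFinset) := ⟨_, rfl⟩
  obtain ⟨C0, hC0⟩ : ∃ C0 : ℝ, C0 = ∑ v ∈ T0, Real.log (Nv v) := ⟨_, rfl⟩
  have hC00 : 0 ≤ C0 := by
    rw [hC0]
    exact Finset.sum_nonneg fun v _ => (log_Nv_pos v).le
  obtain ⟨M, hM⟩ : ∃ M : ℝ, M = (|C1| + |C2| + 2 * C0) / κ' := ⟨_, rfl⟩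
  refine ⟨max (max a1 a2) (max M 0), ?_⟩
  intro x hx1 hx2 hh hFx
  have e1 : a1 ≤ htm x := (le_max_left _ _).trans ((le_max_left _ _).trans hh)
  have e2 : a2 ≤ htm x := (le_max_right _ _).trans ((le_max_left _ _).trans hh)
  have e3 : M ≤ htm x := (le_max_left _ _).trans ((le_max_right _ _).trans hh)
  have e4 : 0 ≤ htm x := (le_max_right _ _).trans ((le_max_right _ _).trans hh)
  have e5 : |C1| + |C2| + 2 * C0 ≤ κ' * htm x := by
    rw [hM, div_le_iff₀ hκ'0] at e3
    linarith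
  obtain ⟨f1, -⟩ := ha1 x hx1 e1 (fun _ => hFx)
  obtain ⟨-, f2⟩ := ha2 x hx2 e2
  have hw : wtt (fun _ : Fin 1 => F) ∅ = (tdeg F : ℝ) := by
    unfold wtt
    have h5' : ∑ i, F.degreeOf i ≤ 5 := h5
    simp only [Finset.univ_unique, Finset.sum_singleton, Finset.card_empty, Nat.cast_zero,
      add_zero]
    unfold wt tdeg
    rw [if_pos h5']
  have hUU : UU (fun _ : Fin 1 => F) ∅ x ⊆ ddm F x := by
    intro v hv
    rw [UU, Finset.mem_biUnion] at hv
    obtain ⟨k, hk, hkv⟩ := hv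
    rcases k with j | i
    · exact hkv
    · simp at hk
  rw [hw] at f1
  have f3 : ∑ v ∈ UU (fun _ : Fin 1 => F) ∅ x, Real.log (Nv v) ≤
      ∑ v ∈ ddm F x, Real.log (Nv v) :=
    Finset.sum_le_sum_of_subset_of_nonneg hUU fun v _ _ => (log_Nv_pos v).le
  -- the local heights
  have f4 : ∑ v ∈ ddm F x, lh v F x ≤ (tdeg F : ℝ) * htm x + C1 := by
    refine (hC1 x hFx _).trans (add_le_add ?_ le_rfl)
    unfold tdeg
    push_cast
    rw [Finset.sum_mul]
    refine Finset.sum_le_sum fun i _ => mul_le_mul_of_nonneg_left ?_ (Nat.cast_nonneg _)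
    rw [hr_aff]
    exact le_htm x i
  obtain ⟨P2, hP2⟩ : ∃ P2 : Finset (Pr K), P2 = (ddm F x \ T0).filter fun v =>
    fv v (MvPolynomial.eval x F) ≠ (Nv v)⁻¹ := ⟨_, rfl⟩
  obtain ⟨Pg, hPg⟩ : ∃ Pg : Finset (Pr K), Pg = (ddm F x).filter fun v =>
    fv v (MvPolynomial.eval x g) < 1 := ⟨_, rfl⟩
  have f5 : ∑ v ∈ ddm F x \ T0, Real.log (Nv v) + ∑ v ∈ P2, Real.log (Nv v) ≤
      ∑ v ∈ ddm F x, lh v F x := by
    have g1 : ∑ v ∈ ddm F x \ T0, lh v F x ≤ ∑ v ∈ ddm F x, lh v F x :=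
      Finset.sum_le_sum_of_subset_of_nonneg Finset.sdiff_subset fun v _ _ => lh_nonneg v hFx
    refine le_trans ?_ g1
    rw [hP2, Finset.sum_filter, ← Finset.sum_add_distrib]
    refine Finset.sum_le_sum fun v hv => ?_
    obtain ⟨hv1, hv2⟩ := Finset.mem_sdiff.1 hv
    rw [mem_ddm hFx] at hv1
    have hlm : lm (Sum.inr v) (cfs F) = 0 := by
      by_contra hcon
      refine hv2 ?_
      rw [hT0]
      exact Finset.mem_union_right _ (Finset.mem_union_left _ (by
        rw [Set.Finite.mem_toFinset]; exact hcon))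
    rw [lh_int hlm hv1.1]
    split_ifs with h
    · have := two_le_ord hFx hv1.2 h
      linarith
    · have := log_ge_of_lt hFx hv1.2
      linarith
  have f6 : ∑ v ∈ ddm F x, Real.log (Nv v) ≤ ∑ v ∈ ddm F x \ T0, Real.log (Nv v) + C0 := by
    rw [hC0]
    refine (Finset.sum_le_sum_of_subset_of_nonneg (t := ddm F x \ T0 ∪ T0) ?_
      fun v _ _ => (log_Nv_pos v).le).trans (le_of_eq (Finset.sum_union Finset.sdiff_disjoint))
    intro v hv
    by_cases hvT : v ∈ T0
    · exact Finset.mem_union_right _ hvT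
    · exact Finset.mem_union_left _ (Finset.mem_sdiff.2 ⟨hv, hvT⟩)
  have f7 : ∑ v ∈ Pg, Real.log (Nv v) ≤ idHt F g x + C2 := by
    refine hC2 x hFx _ fun v hv => ?_
    rw [hPg, Finset.mem_filter, mem_ddm hFx] at hv
    exact ⟨hv.1.1, hv.1.2, hv.2⟩
  have f8 : ∑ v ∈ ddm F x, Real.log (Nv v) ≤ ∑ v ∈ good F g Bad x, Real.log (Nv v) +
      (C0 + (∑ v ∈ P2, Real.log (Nv v) + ∑ v ∈ Pg, Real.log (Nv v))) := by
    have hsub : ddm F x ⊆ good F g Bad x ∪ (T0 ∪ (P2 ∪ Pg)) := by
      intro v hv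
      by_cases hvT : v ∈ T0
      · exact Finset.mem_union_right _ (Finset.mem_union_left _ hvT)
      by_cases hvg : fv v (MvPolynomial.eval x g) < 1
      · refine Finset.mem_union_right _ (Finset.mem_union_right _ (Finset.mem_union_right _ ?_))
        rw [hPg, Finset.mem_filter]
        exact ⟨hv, hvg⟩
      by_cases hvF : fv v (MvPolynomial.eval x F) ≠ (Nv v)⁻¹
      · refine Finset.mem_union_right _ (Finset.mem_union_right _ (Finset.mem_union_left _ ?_))
        rw [hP2, Finset.mem_filter]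
        exact ⟨Finset.mem_sdiff.2 ⟨hv, hvT⟩, hvF⟩
      rw [not_not] at hvF
      refine Finset.mem_union_left _ ?_
      unfold good
      rw [Finset.mem_filter]
      refine ⟨hv, fun hb => hvT (by rw [hT0]; exact Finset.mem_union_left _ hb), hvF, ?_⟩
      rw [mem_ddm hFx] at hv
      rw [not_lt] at hvg
      have hgx : MvPolynomial.eval x g ≠ 0 := by
        intro h0
        rw [h0, map_zero] at hvg
        linarith
      have hlm : lm (Sum.inr v) (cfs g) = 0 := by
        by_contra hcon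
        refine hvT ?_
        rw [hT0]
        exact Finset.mem_union_right _ (Finset.mem_union_right _ (by
          rw [Set.Finite.mem_toFinset]; exact hcon))
      have h3 := lh_nonneg v hgx
      rw [lh_int hlm hv.1] at h3
      have h4 : Real.log (fv v (MvPolynomial.eval x g)) ≤ 0 := by
        have : nm (Sum.inr v) (MvPolynomial.eval x g) =
          Real.log (fv v (MvPolynomial.eval x g)) := rfl
        linarith
      have h6 := (Real.log_nonpos_iff (by linarith)).1 h4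
      exact le_antisymm h6 hvg
    refine (Finset.sum_le_sum_of_subset_of_nonneg hsub fun v _ _ => (log_Nv_pos v).le).trans ?_
    have hu : ∀ A B : Finset (Pr K), ∑ v ∈ A ∪ B, Real.log (Nv v) ≤
        ∑ v ∈ A, Real.log (Nv v) + ∑ v ∈ B, Real.log (Nv v) := by
      intro A B
      rw [← Finset.sum_union_inter]
      exact le_add_of_nonneg_right (Finset.sum_nonneg fun v _ => (log_Nv_pos v).le)
    have u1 := hu (good F g Bad x) (T0 ∪ (P2 ∪ Pg))
    have u2 := hu T0 (P2 ∪ Pg)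
    have u3 := hu P2 Pg
    rw [hC0]
    linarith
  have b1 := le_abs_self C1
  have b2 := le_abs_self C2
  have hk : κ = 4 * κ' := by rw [hκ']; ring
  rw [hk]
  linarith

end Pool.Agent.N753.AC
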