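import Mathlib
import Pool.Agent.N753.AC.Cnt
import Pool.Agent.N753.AC.Disc
import Pool.Agent.N459.AC.NRM

/-!
# All covers at once: the inequality for one cover (project AC)
-/

set_option autoImplicit false
set_option linter.unusedSectionVars false

namespace Pool.Agent.N753.AC

open NumberField IsDedekindDomain Finset Pool.Agent.H691R3
open Pool.Agent.TH876.Loc hiding mx
open Pool.Agent.N753.LS Pool.Agent.N753.SF Pool.Agent.N753.SU Polynomial

variable {K : Type} [Field K] [NumberField K]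

/-- the prime `w` is outside `S`, the point is integral at `w` and meets the divisor at `w` -/
def Hit {m r : ℕ} {A : Type} [CommRing A] (S : Finset (Pr K)) (F : Fin r → MvPolynomial (Fin m) K)
    (Y : Fin r → Finset A) (x : Fin m → K) {L : Type} [Field L] [NumberField L] [Algebra K L]
    (φ : A →+* L) (w : HeightOneSpectrum (𝓞 L)) : Prop :=
  (∀ v ∈ S, ¬ v.asIdeal.map (algebraMap (𝓞 K) (𝓞 L)) ≤ w.asIdeal) ∧
    (∀ i, FinitePlace.mk w (algebraMap K L (x i)) ≤ 1) ∧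
    ∃ j, FinitePlace.mk w (algebraMap K L (MvPolynomial.eval x (F j))) < 1 ∧
      ∀ y ∈ Y j, FinitePlace.mk w (φ y) < 1

theorem hit_finite {m r : ℕ} {A : Type} [CommRing A] (S : Finset (Pr K))
    (F : Fin r → MvPolynomial (Fin m) K) (Y : Fin r → Finset A) {x : Fin m → K}
    (hx : ∀ j, MvPolynomial.eval x (F j) ≠ 0) {L : Type} [Field L] [NumberField L] [Algebra K L]
    (φ : A →+* L) : {w | Hit S F Y x φ w}.Finite := by
  refine (Set.finite_iUnion fun j => fv_support_finite (K := L)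
    (x := algebraMap K L (MvPolynomial.eval x (F j))) ?_).subset ?_
  · rw [Ne, map_eq_zero]
    exact hx j
  · rintro w ⟨-, -, j, hw, -⟩
    exact Set.mem_iUnion.2 ⟨j, hw.ne⟩

open Classical in
/-- **one cover** -/
theorem cover (hRAM : StmRAM) (hNRM : StmNRM) (hUM : StmUM) {m : ℕ} {E1 E2 : Set (Fin m → K)}
    (h1 : ∀ (r : ℕ) (F : Fin r → MvPolynomial (Fin m) K) (I : Finset (Fin m)),
        (∀ j, Irreducible (F j)) → (∀ j k, j ≠ k → ¬ Associated (F j) (F k)) → ∀ κ : ℝ, 0 < κ →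
        ∃ h0 : ℝ, ∀ x : Fin m → K, x ∉ E1 → h0 ≤ htm x →
          (∀ j, MvPolynomial.eval x (F j) ≠ 0) →
            (wtt F I - κ) * htm x ≤ ∑ v ∈ UU F I x, Real.log (Nv v) ∧
              ∀ i, (1 - κ) * htm x ≤ hr (aff (x i)))
    (h2 : ∀ F G : MvPolynomial (Fin m) K, IsRelPrime F G → ∀ κ : ℝ, 0 < κ →
        ∃ h0 : ℝ, ∀ x : Fin m → K, x ∉ E2 → h0 ≤ htm x →
          (MvPolynomial.eval x F ≠ 0 ∨ MvPolynomial.eval x G ≠ 0) ∧
            idHt F G x ≤ κ * htm x) (hm : 0 < m)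
    (A : Type) [CommRing A] [IsDomain A] [IsIntegrallyClosed A]
    [Algebra (MvPolynomial (Fin m) K) A] [FaithfulSMul (MvPolynomial (Fin m) K) A]
    [Module.Finite (MvPolynomial (Fin m) K) A]
    {r : ℕ} (F : Fin r → MvPolynomial (Fin m) K) (Y : Fin r → Finset A) (s : Fin r → ℕ)
    (hF : ∀ j, Irreducible (F j)) (hFF : ∀ i j, i ≠ j → ¬ Associated (F i) (F j))
    (h5 : ∀ j, tdeg (F j) ≤ 5) (hs : ∀ j, SheetsLE A (F j) (Y j) (s j))
    (hsN : ∀ j, s j ≤ Module.finrank (MvPolynomial (Fin m) K) A)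
    (S : Finset (Pr K)) {ε : ℝ} (hε : 0 < ε) :
    ∃ C : ℝ, ∀ x : Fin m → K, x ∉ E1 → x ∉ E2 → (∀ j, MvPolynomial.eval x (F j) ≠ 0) →
      ∀ (L : Type) [Field L] [NumberField L] [Algebra K L] (φ : A →+* L), Function.Surjective φ →
        Module.finrank K L = Module.finrank (MvPolynomial (Fin m) K) A →
        (∀ f : MvPolynomial (Fin m) K, φ (algebraMap (MvPolynomial (Fin m) K) A f) =
          algebraMap K L (MvPolynomial.eval x f)) →
        ∑ i, (∑ j, (1 - (s j : ℝ) / Module.finrank (MvPolynomial (Fin m) K) A) *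
          ((F j).degreeOf i : ℝ)) * Height.logHeight₁ (x i) ≤
          (∑ᶠ w : HeightOneSpectrum (𝓞 L), if Hit S F Y x φ w then
            Real.log (Ideal.absNorm w.asIdeal) else 0) / Module.finrank K L +
              Real.log |(discr L : ℝ)| / Module.finrank K L + ε * htm x + C := by
  choose g' Bad' hg' hsp using fun j => hNRM K m A (F j) (Y j) (s j) (hF j) (hs j)
  obtain ⟨N, hN⟩ : ∃ N : ℕ, N = Module.finrank (MvPolynomial (Fin m) K) A := ⟨_, rfl⟩
  obtain ⟨g, hg⟩ : ∃ g : Fin r → MvPolynomial (Fin m) K,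
      ∀ j, g j = g' j * ∏ i ∈ Finset.univ.erase j, F i := ⟨_, fun _ => rfl⟩
  have hgd : ∀ j, ¬ F j ∣ g j := by
    intro j hd
    rw [hg] at hd
    rcases (hF j).prime.dvd_or_dvd hd with h | h
    · exact hg' j h
    · obtain ⟨i, hi, h3⟩ := ((hF j).prime.dvd_finsetProd_iff _).1 h
      exact hFF j i (Finset.ne_of_mem_erase hi).symm ((hF j).associated_of_dvd (hF i) h3)
  have hev : ∀ f : MvPolynomial (Fin m) K, {v : Pr K | ¬ ∀ x : Fin m → K,
      (∀ i, FinitePlace.mk v (x i) ≤ 1) → FinitePlace.mk v (MvPolynomial.eval x f) ≤ 1}.Finite :=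
    fun f => Pool.Agent.N459.AC.ev_poly f
  obtain ⟨BT, hBT⟩ : ∃ BT : Finset (Pr K), BT = S ∪ (Finset.univ.biUnion Bad' ∪
    ((Finset.univ.biUnion fun j => (hev (g' j)).toFinset) ∪
      (Finset.univ.biUnion fun j => (hev (F j)).toFinset))) := ⟨_, rfl⟩
  obtain ⟨κ, hκ⟩ : ∃ κ : ℝ, κ = ε / (r + 1) := ⟨_, rfl⟩
  have hκ0 : 0 < κ := by rw [hκ]; positivity
  have hκr : (r : ℝ) * κ ≤ ε := by
    rw [hκ, mul_div_assoc', div_le_iff₀ (by positivity)]
    nlinarith
  choose a ha using fun j => cnt hUM h1 h2 (hF j) (h5 j) (hgd j) BT hκ0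
  obtain ⟨M, hM⟩ : ∃ M : ℝ, M = max 0 (∑ j, |a j|) := ⟨_, rfl⟩
  have hMj : ∀ j, a j ≤ M := fun j => by
    rw [hM]
    refine le_max_of_le_right ((le_abs_self _).trans ?_)
    exact Finset.single_le_sum (f := fun j => |a j|) (fun j _ => abs_nonneg _) (Finset.mem_univ j)
  have hM0 : 0 ≤ M := by rw [hM]; exact le_max_left _ _
  have hq : ∀ j, 0 ≤ 1 - (s j : ℝ) / N ∧ 1 - (s j : ℝ) / N ≤ 1 := by
    intro j
    have h3 : (s j : ℝ) ≤ N := by
      rw [hN]
      exact_mod_cast hsN j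
    have h4 : (0 : ℝ) ≤ N := Nat.cast_nonneg _
    have h6 : (0 : ℝ) ≤ s j := Nat.cast_nonneg _
    constructor
    · rw [sub_nonneg]
      exact div_le_one_of_le₀ h3 h4
    · have := div_nonneg h6 h4
      linarith
  obtain ⟨deg, hdeg⟩ : ∃ deg : Fin m → ℝ, ∀ i, deg i = ∑ j, (1 - (s j : ℝ) / N) *
    ((F j).degreeOf i : ℝ) := ⟨_, fun _ => rfl⟩
  have hdeg0 : ∀ i, 0 ≤ deg i := fun i => by
    rw [hdeg]
    exact Finset.sum_nonneg fun j _ => mul_nonneg (hq j).1 (Nat.cast_nonneg _)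
  refine ⟨(∑ i, deg i) * M, ?_⟩
  intro x hx1 hx2 hxF L _ _ _ φ hsurj hfr hcomp
  rw [← hN] at hfr ⊢
  simp only [← hdeg]
  have hN0 : (0 : ℝ) < N := by
    rw [← hfr]
    exact_mod_cast Module.finrank_pos
  obtain ⟨TR, hTR⟩ : ∃ TR : ℝ, TR = ∑ᶠ w : HeightOneSpectrum (𝓞 L), if Hit S F Y x φ w then
    Real.log (Ideal.absNorm w.asIdeal : ℝ) else 0 := ⟨_, rfl⟩
  rw [← hTR, hfr]
  have hTR0 : 0 ≤ TR := by
    rw [hTR]
    refine finsum_nonneg fun w => ?_
    split_ifs
    · exact Real.log_natCast_nonneg _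
    · exact le_rfl
  have hd0 : 0 ≤ Real.log |(discr L : ℝ)| := by
    refine Real.log_nonneg ?_
    have : (1 : ℤ) ≤ |discr L| := Int.one_le_abs (discr_ne_zero L)
    exact_mod_cast this
  have hht : ∀ i, Height.logHeight₁ (x i) ≤ htm x := fun i => le_htm x i
  have hht0 : 0 ≤ htm x := (Height.zero_le_logHeight₁ (x ⟨0, hm⟩)).trans (hht _)
  have hle : ∑ i, deg i * Height.logHeight₁ (x i) ≤ (∑ i, deg i) * htm x := by
    rw [Finset.sum_mul]
    exact Finset.sum_le_sum fun i _ => mul_le_mul_of_nonneg_left (hht i) (hdeg0 i)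
  have hsd : 0 ≤ ∑ i, deg i := Finset.sum_nonneg fun i _ => hdeg0 i
  by_cases hcase : M ≤ htm x
  swap
  · rw [not_le] at hcase
    have h3 := mul_le_mul_of_nonneg_left hcase.le hsd
    have h4 := div_nonneg hTR0 hN0.le
    have h6 := div_nonneg hd0 hN0.le
    have h7 := mul_nonneg hε.le hht0
    linarith
  -- the good primes
  obtain ⟨V, hV⟩ : ∃ V : Fin r → Finset (Pr K), ∀ j, V j = good (F j) (g j) BT x :=
    ⟨_, fun _ => rfl⟩
  have hVmem : ∀ j, ∀ v ∈ V j, v ∉ BT ∧ (∀ i, FinitePlace.mk v (x i) ≤ 1) ∧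
      FinitePlace.mk v (MvPolynomial.eval x (F j)) = (Ideal.absNorm v.asIdeal : ℝ)⁻¹ ∧
      FinitePlace.mk v (MvPolynomial.eval x (F j)) < 1 ∧
      FinitePlace.mk v (MvPolynomial.eval x (g' j)) = 1 ∧
      ∀ i, i ≠ j → FinitePlace.mk v (MvPolynomial.eval x (F i)) = 1 := by
    intro j v hv
    rw [hV] at hv
    unfold good at hv
    rw [Finset.mem_filter, mem_ddm (hxF j)] at hv
    obtain ⟨⟨c1, c2⟩, c3, c4, c5⟩ := hv
    have c1' : ∀ i, FinitePlace.mk v (x i) ≤ 1 := c1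
    have b1 : ∀ f : MvPolynomial (Fin m) K, v ∉ (hev f).toFinset →
        FinitePlace.mk v (MvPolynomial.eval x f) ≤ 1 := by
      intro f hf
      rw [Set.Finite.mem_toFinset, Set.mem_ofPred_eq, not_not] at hf
      exact hf x c1'
    have b2 : FinitePlace.mk v (MvPolynomial.eval x (g' j)) ≤ 1 := b1 _ fun h => c3 (by
      rw [hBT]
      exact Finset.mem_union_right _ (Finset.mem_union_right _ (Finset.mem_union_left _
        (Finset.mem_biUnion.2 ⟨j, Finset.mem_univ _, h⟩))))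
    have b3 : ∀ i, FinitePlace.mk v (MvPolynomial.eval x (F i)) ≤ 1 := fun i => b1 _ fun h => c3 (by
      rw [hBT]
      exact Finset.mem_union_right _ (Finset.mem_union_right _ (Finset.mem_union_right _
        (Finset.mem_biUnion.2 ⟨i, Finset.mem_univ _, h⟩))))
    have c5' : FinitePlace.mk v (MvPolynomial.eval x (g' j)) *
        ∏ i ∈ Finset.univ.erase j, FinitePlace.mk v (MvPolynomial.eval x (F i)) = 1 := by
      have : FinitePlace.mk v (MvPolynomial.eval x (g j)) = 1 := c5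
      rw [hg, map_mul, map_prod, map_mul, map_prod] at this
      exact this
    have b4 : 0 ≤ FinitePlace.mk v (MvPolynomial.eval x (g' j)) := apply_nonneg _ _
    have b5 : ∏ i ∈ Finset.univ.erase j, FinitePlace.mk v (MvPolynomial.eval x (F i)) ≤ 1 :=
      Finset.prod_le_one (fun i _ => apply_nonneg _ _) fun i _ => b3 i
    have b6 : 0 ≤ ∏ i ∈ Finset.univ.erase j, FinitePlace.mk v (MvPolynomial.eval x (F i)) :=
      Finset.prod_nonneg fun i _ => apply_nonneg _ _
    refine ⟨c3, c1', c4, c2, ?_, ?_⟩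
    · refine le_antisymm b2 ?_
      calc (1 : ℝ) = _ := c5'.symm
        _ ≤ FinitePlace.mk v (MvPolynomial.eval x (g' j)) * 1 :=
          mul_le_mul_of_nonneg_left b5 b4
        _ = _ := mul_one _
    · intro i hij
      refine le_antisymm (b3 i) ?_
      have hi : i ∈ Finset.univ.erase j := Finset.mem_erase.2 ⟨hij, Finset.mem_univ _⟩
      have b7 : ∏ i ∈ Finset.univ.erase j, FinitePlace.mk v (MvPolynomial.eval x (F i)) ≤
          FinitePlace.mk v (MvPolynomial.eval x (F i)) := by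
        rw [← Finset.mul_prod_erase _ _ hi]
        refine mul_le_of_le_one_right (apply_nonneg _ _) ?_
        exact Finset.prod_le_one (fun i _ => apply_nonneg _ _) fun i _ => b3 i
      calc (1 : ℝ) = _ := c5'.symm
        _ ≤ 1 * ∏ i ∈ Finset.univ.erase j, FinitePlace.mk v (MvPolynomial.eval x (F i)) :=
          mul_le_mul_of_nonneg_right b2 b6
        _ = _ := one_mul _
        _ ≤ _ := b7
  have hdisj : ∀ i j, i ≠ j → Disjoint (V i) (V j) := by
    intro i j hij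
    refine Finset.disjoint_left.2 fun v hv hv' => ?_
    obtain ⟨-, -, -, c4, -, -⟩ := hVmem i v hv
    obtain ⟨-, -, -, -, -, c6⟩ := hVmem j v hv'
    exact absurd (c6 i hij) c4.ne
  have hmain := disc_bound (K := K) (L := L) hRAM V hdisj s
    (fun j w => ∀ y ∈ Y j, FinitePlace.mk w (φ y) < 1) (by
      intro j v hv
      obtain ⟨c1, c2, c3, c4, c5, c6⟩ := hVmem j v hv
      obtain ⟨ζ, hζ1, hζ2⟩ := hsp j L φ x hsurj (by rw [hfr, hN]) hcomp v (fun h => c1 (by
        rw [hBT]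
        exact Finset.mem_union_right _ (Finset.mem_union_left _
          (Finset.mem_biUnion.2 ⟨j, Finset.mem_univ _, h⟩)))) c2 c3 c5
      refine ⟨ζ, hζ1, fun w hw => ?_⟩
      obtain ⟨d1, d2, d3⟩ := hζ2 w hw
      refine ⟨d1, fun hcon => d3 ?_⟩
      push Not at hcon
      obtain ⟨y, hy, hy1⟩ := hcon
      exact ⟨y, hy, le_antisymm (d2 y hy) hy1⟩) (Hit S F Y x φ) (by
      intro j v hv w hw hc
      obtain ⟨c1, c2, c3, c4, c5, c6⟩ := hVmem j v hv
      refine ⟨?_, ?_, j, ?_, hc⟩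
      · intro v' hv' hw'
        have hvv : v' = v := ab_unique hw' hw
        refine c1 ?_
        rw [hBT, ← hvv]
        exact Finset.mem_union_left _ hv'
      · intro i
        exact (Pool.Agent.N459.AC.above hw (c2 i)).1
      · exact (Pool.Agent.N459.AC.above hw c4.le).2.1 c4) (hit_finite S F Y hxF φ)
  rw [← hTR, hfr] at hmain
  have hcn : ∀ j, ((tdeg (F j) : ℝ) - κ) * htm x ≤ ∑ v ∈ V j, Real.log (Nv v) := by
    intro j
    rw [hV]
    exact ha j x hx1 hx2 ((hMj j).trans hcase) (hxF j)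
  have hq2 : ∀ j, (1 - (s j : ℝ) / N) * ((tdeg (F j) : ℝ) * htm x) ≤
      (((N : ℝ) - s j) * ∑ v ∈ V j, Real.log (Nv v)) / N + κ * htm x := by
    intro j
    have e1 := mul_le_mul_of_nonneg_left (hcn j) (hq j).1
    have e2 : (((N : ℝ) - s j) * ∑ v ∈ V j, Real.log (Nv v)) / N =
        (1 - (s j : ℝ) / N) * ∑ v ∈ V j, Real.log (Nv v) := by
      field_simp
    have e3 : (1 - (s j : ℝ) / N) * (κ * htm x) ≤ κ * htm x :=
      mul_le_of_le_one_left (mul_nonneg hκ0.le hht0) (hq j).2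
    rw [e2]
    nlinarith
  have hsum := Finset.sum_le_sum fun j (_ : j ∈ (Finset.univ : Finset (Fin r))) => hq2 j
  rw [Finset.sum_add_distrib, ← Finset.sum_div, Finset.sum_const, Finset.card_univ,
    Fintype.card_fin, nsmul_eq_mul] at hsum
  have hdd : (∑ i, deg i) * htm x = ∑ j, (1 - (s j : ℝ) / N) * ((tdeg (F j) : ℝ) * htm x) := by
    simp only [hdeg]
    rw [Finset.sum_comm, Finset.sum_mul]
    refine Finset.sum_congr rfl fun j _ => ?_
    unfold tdeg
    push_cast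
    rw [← Finset.mul_sum]
    ring
  have hm2 : (∑ j, ((N : ℝ) - s j) * ∑ v ∈ V j, Real.log (Nv v)) / N ≤
      TR / N + Real.log |(discr L : ℝ)| / N := by
    rw [← add_div]
    refine div_le_div_of_nonneg_right ?_ hN0.le
    have e1 : ∑ j, ((N : ℝ) - s j) * ∑ v ∈ V j, Real.log (Nv v) =
      ∑ j, ((N : ℝ) - s j) * ∑ v ∈ V j, Real.log (Ideal.absNorm v.asIdeal) := rfl
    rw [e1]
    linarith
  have hk2 : (r : ℝ) * (κ * htm x) ≤ ε * htm x := by
    rw [← mul_assoc]
    exact mul_le_mul_of_nonneg_right hκr hht0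
  have hMd : 0 ≤ (∑ i, deg i) * M := mul_nonneg hsd hM0
  rw [hdd] at hle
  linarith

end Pool.Agent.N753.AC
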